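import Pool.Agent.W262.SH.Stm
import Pool.Agent.W505.RK.RKB
import Pool.Agent.W214.RK.Half

/-!
Project SH (owner helper262), part SH2: the rank and the Tate-Shafarevich group.
-/

set_option autoImplicit false

open scoped Classical

namespace Pool.Agent.W338.SH

open WeierstrassCurve Pool.Agent.W262.SH

theorem algQB : Algebra.IsAlgebraic ℚ QB := AlgebraicClosure.isAlgebraic ℚ

theorem acQB : IsAlgClosure ℚ QB := ⟨inferInstance, algQB⟩

theorem galQB : IsGalois ℚ QB := by
  have := acQB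
  exact IsAlgClosure.isGalois ℚ QB

section gen
variable (W : WeierstrassCurve ℚ)

theorem act_act {F L N : Type} [Field F] [Field L] [Field N] [Algebra ℚ F] [Algebra ℚ L]
    [Algebra ℚ N] (φ : F →ₐ[ℚ] L) (ψ : L →ₐ[ℚ] N) (P : Pt W F) :
    act W ψ (act W φ P) = act W (ψ.comp φ) P :=
  WeierstrassCurve.Affine.Point.map_map φ ψ P

theorem act_mul (σ τ : QB ≃ₐ[ℚ] QB) (P : Pt W QB) :
    act W (σ * τ).toAlgHom P = act W σ.toAlgHom (act W τ.toAlgHom P) := by
  rw [act_act]
  rfl

theorem act_some {F L : Type} [Field F] [Field L] [Algebra ℚ F] [Algebra ℚ L] (φ : F →ₐ[ℚ] L)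
    {x y : F} (h : (W.baseChange F).toAffine.Nonsingular x y) :
    ∃ h', act W φ (.some x y h) = .some (φ x) (φ y) h' :=
  ⟨_, WeierstrassCurve.Affine.Point.map_some φ h⟩

theorem some_congr {F : Type} [Field F] {W' : WeierstrassCurve F} {x y x' y' : F}
    (hx : x = x') (hy : y = y') (h : W'.toAffine.Nonsingular x y)
    (h' : W'.toAffine.Nonsingular x' y') :
    (Affine.Point.some x y h : W'.toAffine.Point) = Affine.Point.some x' y' h' := by
  subst hx
  subst hy
  rfl

/-- the coboundary of `R` -/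
noncomputable def del (R : Pt W QB) (σ : QB ≃ₐ[ℚ] QB) : Pt W QB := act W σ.toAlgHom R - R

theorem act_locconst (R : Pt W QB) :
    IsLocallyConstant (fun σ : QB ≃ₐ[ℚ] QB => act W σ.toAlgHom R) := by
  rcases R with _ | ⟨x, y, h⟩
  · exact IsLocallyConstant.const 0
  · rw [IsLocallyConstant.iff_exists_open]
    intro σ
    let K0 := IntermediateField.adjoin ℚ ({x, y} : Set QB)
    have : FiniteDimensional ℚ K0 := by
      refine IntermediateField.finiteDimensional_adjoin fun z _ => ?_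
      have := algQB
      exact (Algebra.IsAlgebraic.isAlgebraic (R := ℚ) z).isIntegral
    have ho : IsOpen (K0.fixingSubgroup : Set (QB ≃ₐ[ℚ] QB)) :=
      IntermediateField.fixingSubgroup_isOpen K0
    refine ⟨(fun τ => σ⁻¹ * τ) ⁻¹' (K0.fixingSubgroup : Set (QB ≃ₐ[ℚ] QB)),
      ho.preimage (continuous_const.mul continuous_id), ?_, fun τ hτ => ?_⟩
    · show σ⁻¹ * σ ∈ K0.fixingSubgroup
      rw [inv_mul_cancel]
      exact one_mem _
    · have hfix : ∀ z ∈ ({x, y} : Set QB), τ z = σ z := by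
        intro z hz
        have h1 : z ∈ K0 := IntermediateField.subset_adjoin ℚ _ hz
        have h2 := (IntermediateField.mem_fixingSubgroup_iff K0 _).1 hτ z h1
        have h3 : σ ((σ⁻¹ * τ) z) = σ z := congrArg σ h2
        rw [← h3]
        show τ z = σ (σ⁻¹ (τ z))
        exact (σ.apply_symm_apply (τ z)).symm
      obtain ⟨h1, e1⟩ := act_some W σ.toAlgHom h
      obtain ⟨h2, e2⟩ := act_some W τ.toAlgHom h
      rw [e1, e2]
      exact some_congr (hfix x (by simp)) (hfix y (by simp)) _ _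

theorem del_locconst (R : Pt W QB) : IsLocallyConstant (del W R) :=
  (act_locconst W R).sub (IsLocallyConstant.const R)

theorem del_coc (R : Pt W QB) (σ τ : QB ≃ₐ[ℚ] QB) :
    del W R (σ * τ) = del W R σ + act W σ.toAlgHom (del W R τ) := by
  unfold del
  rw [act_mul, map_sub]
  abel

theorem del_LocTriv (R : Pt W QB) (K : Type) [Field K] [Algebra ℚ K] :
    LocTriv W K (del W R) := by
  intro ι
  refine ⟨act W ι R, fun τ σ h => ?_⟩
  unfold del
  rw [map_sub, act_act, act_act, h]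

end gen

/-! ## the curve -/

section curve
variable {A B : ℤ}

theorem isW (A B : ℤ) (K : Type) [Field K] [Algebra ℚ K] :
    IsW ((E A B).baseChange K) (A : K) (B : K) := by
  refine ⟨map_zero _, ?_, map_zero _, ?_, map_zero _⟩
  · show algebraMap ℚ K (-((A : ℚ) + B)) = _
    rw [map_neg, map_add, map_intCast, map_intCast]
  · show algebraMap ℚ K ((A : ℚ) * B) = _
    rw [map_mul, map_intCast, map_intCast]

theorem add_inst {F : Type} [Field F] (W : WeierstrassCurve F) (d1 d2 : DecidableEq F)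
    (P Q : W.toAffine.Point) :
    (@HAdd.hAdd _ _ _ (@instHAdd _ (@WeierstrassCurve.Affine.Point.instAdd F _ _ d1)) P Q) =
    (@HAdd.hAdd _ _ _ (@instHAdd _ (@WeierstrassCurve.Affine.Point.instAdd F _ _ d2)) P Q) := by
  rw [Subsingleton.elim d1 d2]

theorem act_add {F L : Type} [Field F] [Field L] [Algebra ℚ F] [Algebra ℚ L]
    (W : WeierstrassCurve ℚ) (φ : F →ₐ[ℚ] L) (P Q : Pt W F) :
    act W φ (P + Q) = act W φ P + act W φ Q := map_add _ P Q

/-- the rational points as points over the algebraic numbers -/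
noncomputable def J (A B : ℤ) : (E A B).toAffine.Point →+ Pt (E A B) QB where
  toFun P := act (E A B) (F := ℚ) (Algebra.ofId ℚ QB) P
  map_zero' := rfl
  map_add' P Q := by
    have h := act_add (F := ℚ) (E A B) (Algebra.ofId ℚ QB) P Q
    have h2 := add_inst (E A B) (fun a b => Classical.propDecidable (a = b)) instDecidableEqRat P Q
    exact (congrArg (act (E A B) (F := ℚ) (Algebra.ofId ℚ QB)) h2.symm).trans h

theorem J_inj (A B : ℤ) : Function.Injective (J A B) :=
  WeierstrassCurve.Affine.Point.map_injective (W' := E A B) (Algebra.ofId ℚ QB)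

theorem act_J (σ : QB ≃ₐ[ℚ] QB) (P : (E A B).toAffine.Point) :
    act (E A B) σ.toAlgHom (J A B P) = J A B P := by
  have h := act_act (E A B) (F := ℚ) (Algebra.ofId ℚ QB) σ.toAlgHom P
  rw [Subsingleton.elim (σ.toAlgHom.comp (Algebra.ofId ℚ QB)) (Algebra.ofId ℚ QB)] at h
  exact h

theorem fix_J {R : Pt (E A B) QB} (hR : ∀ σ : QB ≃ₐ[ℚ] QB, act (E A B) σ.toAlgHom R = R) :
    ∃ P, J A B P = R := by
  have := galQB
  rcases R with _ | ⟨x, y, h⟩
  · exact ⟨0, map_zero _⟩
  · have hxy : ∀ σ : QB ≃ₐ[ℚ] QB, σ x = x ∧ σ y = y := by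
      intro σ
      obtain ⟨h1, e1⟩ := act_some (E A B) σ.toAlgHom h
      have h2 := (hR σ).symm.trans e1
      injection h2 with h3 h4
      exact ⟨h3.symm, h4.symm⟩
    obtain ⟨x0, hx0⟩ := (InfiniteGalois.mem_range_algebraMap_iff_fixed (k := ℚ) x).2
      fun σ => (hxy σ).1
    obtain ⟨y0, hy0⟩ := (InfiniteGalois.mem_range_algebraMap_iff_fixed (k := ℚ) y).2
      fun σ => (hxy σ).2
    subst hx0
    subst hy0
    have h0 : (E A B).toAffine.Nonsingular x0 y0 :=
      (WeierstrassCurve.Affine.map_nonsingular (W := (E A B).toAffine) (f := algebraMap ℚ QB)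
        (algebraMap ℚ QB).injective x0 y0).1 h
    exact ⟨.some x0 y0 h0, rfl⟩

/-- the points of order two are rational -/
theorem tors_fix {T : Pt (E A B) QB} (hT : T + T = 0) (σ : QB ≃ₐ[ℚ] QB) :
    act (E A B) σ.toAlgHom T = T := by
  obtain ⟨a1, a2, a3, a4, a6⟩ := isW A B QB
  rcases T with _ | ⟨x, y, h⟩
  · exact map_zero _
  · have h1 : (.some x y h : Pt (E A B) QB) = -(.some x y h) := eq_neg_of_add_eq_zero_left hT
    rw [WeierstrassCurve.Affine.Point.neg_some] at h1
    injection h1 with h2 h3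
    have h4 : y = 0 := by
      unfold WeierstrassCurve.Affine.negY at h3
      have h5 : ((E A B).baseChange QB).toAffine.a₁ = 0 := a1
      have h6 : ((E A B).baseChange QB).toAffine.a₃ = 0 := a3
      rw [h5, h6] at h3
      have h7 : 2 * y = 0 := by linear_combination h3
      rcases mul_eq_zero.1 h7 with h8 | h8
      · exact absurd h8 two_ne_zero
      · exact h8
    subst h4
    have h5 := (WeierstrassCurve.Affine.equation_iff _ _).1 h.1
    have b1 : ((E A B).baseChange QB).toAffine.a₁ = 0 := a1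
    have b2 : ((E A B).baseChange QB).toAffine.a₂ = -((A : QB) + B) := a2
    have b3 : ((E A B).baseChange QB).toAffine.a₃ = 0 := a3
    have b4 : ((E A B).baseChange QB).toAffine.a₄ = (A : QB) * B := a4
    have b6 : ((E A B).baseChange QB).toAffine.a₆ = 0 := a6
    rw [b1, b2, b3, b4, b6] at h5
    have h6 : x * ((x - A) * (x - B)) = 0 := by linear_combination -h5
    have hx : σ x = x := by
      rcases mul_eq_zero.1 h6 with h7 | h7
      · rw [h7, map_zero]
      · rcases mul_eq_zero.1 h7 with h8 | h8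
        · rw [sub_eq_zero.1 h8, map_intCast]
        · rw [sub_eq_zero.1 h8, map_intCast]
    obtain ⟨h7, e7⟩ := act_some (E A B) σ.toAlgHom h
    rw [e7]
    exact some_congr hx (map_zero σ) _ _

theorem sel_add {f g : (QB ≃ₐ[ℚ] QB) → Pt (E A B) QB} (hf : IsSel A B f) (hg : IsSel A B g) :
    IsSel A B (f + g) := by
  obtain ⟨f1, f2, f3, f4⟩ := hf
  obtain ⟨g1, g2, g3, g4⟩ := hg
  refine ⟨f1.add g1, fun σ => ?_, fun σ τ => ?_, fun p _ hp ι => ?_⟩
  · calc (f + g) σ + (f + g) σ = (f σ + f σ) + (g σ + g σ) := by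
          simp only [Pi.add_apply]; abel
      _ = 0 := by rw [f2, g2, add_zero]
  · simp only [Pi.add_apply, f3, g3]
    abel
  · obtain ⟨P, hP⟩ := f4 p hp ι
    obtain ⟨Q, hQ⟩ := g4 p hp ι
    refine ⟨P + Q, fun τ σ h => ?_⟩
    simp only [Pi.add_apply, map_add, hP τ σ h, hQ τ σ h]
    abel

/-- the doubles -/
def dbl (G : Type) [AddCommGroup G] : AddSubgroup G where
  carrier := {g | ∃ q, g = q + q}
  zero_mem' := ⟨0, (add_zero 0).symm⟩
  add_mem' := by
    rintro a b ⟨p, rfl⟩ ⟨q, rfl⟩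
    exact ⟨p + q, by abel⟩
  neg_mem' := by
    rintro a ⟨p, rfl⟩
    exact ⟨-p, by abel⟩

theorem count {G S H : Type} [AddCommGroup G] (hG : AddGroup.FG G) (s0 : S) (X : Set H)
    (hX : X.Finite) (F : (G ⧸ dbl G) × S → H) (hF : ∀ x, F x ∈ X) (inj : Function.Injective F) :
    Finite S ∧ 2 ^ Module.finrank ℤ G * Nat.card S ≤ X.ncard := by
  have h1 : Finite X := hX
  let F' : (G ⧸ dbl G) × S → X := fun x => ⟨F x, hF x⟩
  have hi : Function.Injective F' := fun x y h => inj (congrArg Subtype.val h)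
  have h2 : Finite ((G ⧸ dbl G) × S) := Finite.of_injective F' hi
  have h3 : Finite S := Finite.of_injective (fun s : S => ((0 : G ⧸ dbl G), s))
    fun a b h => (Prod.ext_iff.1 h).2
  have h4 : Finite (G ⧸ dbl G) := Finite.of_injective (fun s : G ⧸ dbl G => (s, s0))
    fun a b h => (Prod.ext_iff.1 h).1
  refine ⟨h3, ?_⟩
  have h5 : Nat.card (G ⧸ dbl G) * Nat.card S ≤ X.ncard := by
    rw [← Nat.card_prod, ← Nat.card_coe_set_eq]
    exact Nat.card_le_card_of_injective F' hi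
  have h6 : 2 ^ Module.finrank ℤ G ≤ Nat.card (G ⧸ dbl G) := by
    have : Fintype (G ⧸ dbl G) := Fintype.ofFinite _
    refine Pool.Agent.W505.RK.rkb G hG _
      ((Finset.univ : Finset (G ⧸ dbl G)).image fun w => Quotient.out w) ?_ fun g => ?_
    · rw [Nat.card_eq_fintype_card]
      exact Finset.card_image_le
    · refine ⟨Quotient.out (QuotientAddGroup.mk g : G ⧸ dbl G),
        Finset.mem_image_of_mem _ (Finset.mem_univ _), ?_⟩
      have h7 : (QuotientAddGroup.mk (Quotient.out (QuotientAddGroup.mk g : G ⧸ dbl G)) :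
        G ⧸ dbl G) = QuotientAddGroup.mk g := QuotientAddGroup.out_eq' _
      obtain ⟨q, hq⟩ := QuotientAddGroup.eq.1 h7
      exact ⟨q, by rw [← hq]; abel⟩
  exact (Nat.mul_le_mul_right _ h6).trans h5

theorem fg (A B : ℤ) (hA : A ≠ 0) (hB : B ≠ 0) (hAB : A ≠ B) :
    AddGroup.FG (E A B).toAffine.Point := (Pool.Agent.W214.RK.half A B hA hB hAB).1

/-- division by two -/
theorem div2 (hD : DIV) (A B : ℤ) (hA : A ≠ 0) (hB : B ≠ 0) (hAB : A ≠ B) (P : Pt (E A B) QB) :
    ∃ Q, P = Q + Q :=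
  hD QB ((E A B).baseChange QB) (A : QB) (B : QB) (isW A B QB) (by exact_mod_cast hA)
    (by exact_mod_cast hB) (by exact_mod_cast hAB) P

/-- the Selmer homomorphism of a rational point -/
theorem sel_del {P : (E A B).toAffine.Point} {R : Pt (E A B) QB} (h : R + R = J A B P) :
    IsSel A B (del (E A B) R) := by
  have h2 : ∀ σ, del (E A B) R σ + del (E A B) R σ = 0 := by
    intro σ
    have h3 := act_J (A := A) (B := B) σ P
    rw [← h, map_add] at h3
    unfold del
    calc act (E A B) σ.toAlgHom R - R + (act (E A B) σ.toAlgHom R - R)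
        = (act (E A B) σ.toAlgHom R + act (E A B) σ.toAlgHom R) - (R + R) := by abel
      _ = 0 := by rw [h3, sub_self]
  refine ⟨del_locconst _ R, h2, fun σ τ => ?_, fun p _ _ => del_LocTriv _ R _⟩
  rw [del_coc, tors_fix (h2 τ)]

/-- the Selmer homomorphism of a class of order two -/
theorem sel_sha (hD : DIV) (hA : A ≠ 0) (hB : B ≠ 0) (hAB : A ≠ B)
    (c : Sha (E A B)) (hc : c + c = 0) :
    ∃ f : shaCoc (E A B), (QuotientAddGroup.mk f : Sha (E A B)) = c ∧
      IsSel A B (f : (QB ≃ₐ[ℚ] QB) → Pt (E A B) QB) := by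
  obtain ⟨f, rfl⟩ := QuotientAddGroup.mk_surjective c
  have h1 : f + f ∈ (cob (E A B)).addSubgroupOf (shaCoc (E A B)) := by
    rw [← QuotientAddGroup.eq_zero_iff]
    exact hc
  obtain ⟨P, hP⟩ := (AddSubgroup.mem_addSubgroupOf.1 h1 : IsCob (E A B) _)
  obtain ⟨Q, rfl⟩ := div2 hD A B hA hB hAB P
  have hd : del (E A B) Q ∈ shaCoc (E A B) :=
    ⟨⟨del_locconst _ Q, del_coc _ Q⟩, fun p _ => del_LocTriv _ Q _, del_LocTriv _ Q _⟩
  let f' : shaCoc (E A B) := f - ⟨_, hd⟩
  have hf' : ∀ σ, (f' : (QB ≃ₐ[ℚ] QB) → Pt (E A B) QB) σ =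
    (f : (QB ≃ₐ[ℚ] QB) → Pt (E A B) QB) σ - (act (E A B) σ.toAlgHom Q - Q) := fun σ => rfl
  have h2 : ∀ σ, (f' : (QB ≃ₐ[ℚ] QB) → Pt (E A B) QB) σ +
      (f' : (QB ≃ₐ[ℚ] QB) → Pt (E A B) QB) σ = 0 := by
    intro σ
    have h3 : (f : (QB ≃ₐ[ℚ] QB) → Pt (E A B) QB) σ + (f : (QB ≃ₐ[ℚ] QB) → Pt (E A B) QB) σ =
      act (E A B) σ.toAlgHom (Q + Q) - (Q + Q) := hP σ
    rw [map_add] at h3
    rw [hf']
    calc (f : (QB ≃ₐ[ℚ] QB) → Pt (E A B) QB) σ - (act (E A B) σ.toAlgHom Q - Q) +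
        ((f : (QB ≃ₐ[ℚ] QB) → Pt (E A B) QB) σ - (act (E A B) σ.toAlgHom Q - Q))
        = ((f : (QB ≃ₐ[ℚ] QB) → Pt (E A B) QB) σ + (f : (QB ≃ₐ[ℚ] QB) → Pt (E A B) QB) σ) -
          (act (E A B) σ.toAlgHom Q + act (E A B) σ.toAlgHom Q - (Q + Q)) := by abel
      _ = 0 := by rw [h3, sub_self]
  refine ⟨f', ?_, f'.2.1.1, h2, fun σ τ => ?_, fun p _ _ => f'.2.2.1 p⟩
  · rw [QuotientAddGroup.eq]
    refine AddSubgroup.mem_addSubgroupOf.2 ⟨Q, fun σ => ?_⟩
    show -((f' : (QB ≃ₐ[ℚ] QB) → Pt (E A B) QB) σ) + (f : (QB ≃ₐ[ℚ] QB) → Pt (E A B) QB) σ = _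
    rw [hf']
    abel
  · rw [f'.2.1.2 σ τ, tors_fix (h2 τ)]

end curve

theorem sh2 (hD : DIV) : SH2 := by
  intro A B hA hB hAB hfin
  choose R hR using fun P : (E A B).toAffine.Point => div2 hD A B hA hB hAB (J A B P)
  choose f hf1 hf2 using fun c : {c : Sha (E A B) // c + c = 0} =>
    sel_sha hD hA hB hAB c.1 c.2
  refine count (fg A B hA hB hAB) (⟨0, add_zero 0⟩ : {c : Sha (E A B) // c + c = 0}) _ hfin
    (fun x => del (E A B) (R (Quotient.out x.1)) + (f x.2 : (QB ≃ₐ[ℚ] QB) → Pt (E A B) QB))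
    (fun x => sel_add (sel_del (hR _).symm) (hf2 _)) ?_
  rintro ⟨w, c⟩ ⟨w', c'⟩ h
  have h' : ∀ σ, del (E A B) (R (Quotient.out w)) σ +
      (f c : (QB ≃ₐ[ℚ] QB) → Pt (E A B) QB) σ = del (E A B) (R (Quotient.out w')) σ +
      (f c' : (QB ≃ₐ[ℚ] QB) → Pt (E A B) QB) σ := fun σ => congrFun h σ
  have hc : c = c' := by
    apply Subtype.ext
    rw [← hf1 c, ← hf1 c', QuotientAddGroup.eq]
    refine AddSubgroup.mem_addSubgroupOf.2
      ⟨R (Quotient.out w) - R (Quotient.out w'), fun σ => ?_⟩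
    show -((f c : (QB ≃ₐ[ℚ] QB) → Pt (E A B) QB) σ) +
      (f c' : (QB ≃ₐ[ℚ] QB) → Pt (E A B) QB) σ = _
    have h1 := h' σ
    unfold del at h1
    rw [map_sub]
    have h2 : (f c' : (QB ≃ₐ[ℚ] QB) → Pt (E A B) QB) σ =
      (act (E A B) σ.toAlgHom (R (Quotient.out w)) - R (Quotient.out w) +
        (f c : (QB ≃ₐ[ℚ] QB) → Pt (E A B) QB) σ) -
      (act (E A B) σ.toAlgHom (R (Quotient.out w')) - R (Quotient.out w')) := by
      rw [h1]
      abel
    rw [h2]
    abel
  subst hc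
  have hw : w = w' := by
    have h1 : ∀ σ : QB ≃ₐ[ℚ] QB, act (E A B) σ.toAlgHom
        (R (Quotient.out w) - R (Quotient.out w')) =
        R (Quotient.out w) - R (Quotient.out w') := by
      intro σ
      have h2 := add_right_cancel (h' σ)
      unfold del at h2
      rw [map_sub]
      have h3 : act (E A B) σ.toAlgHom (R (Quotient.out w)) =
        act (E A B) σ.toAlgHom (R (Quotient.out w')) - R (Quotient.out w') +
          R (Quotient.out w) := by
        rw [← h2]
        abel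
      rw [h3]
      abel
    obtain ⟨S, hS⟩ := fix_J h1
    have h4 : Quotient.out w - Quotient.out w' = S + S := by
      apply J_inj A B
      rw [map_sub, map_add, hS, hR, hR]
      abel
    rw [← QuotientAddGroup.out_eq' w, ← QuotientAddGroup.out_eq' w', QuotientAddGroup.eq]
    exact ⟨-S, by
      calc -Quotient.out w + Quotient.out w' = -(Quotient.out w - Quotient.out w') := by abel
        _ = -S + -S := by rw [h4]; abel⟩
  subst hw
  rfl

end Pool.Agent.W338.SH
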